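import Pool.Agent.MP_5c28a4_al.H89.Spec

set_option autoImplicit false

namespace Pool.Agent.MP_5c28a4_al.H43

open Pool.Agent.Burnside6 Pool.Agent.MP_5c28a4_al.H89

variable {G : Type} [Group G]

theorem d2 (X : Nm G) (a b z : G) : X.d z (a * b * z) ≤ X.d z (a * z) + X.d z (b * z) := by
  have := X.tri z (a * z) (a * b * z)
  rwa [mul_assoc a b z, Nm.d_mul, ← mul_assoc] at this

theorem prd_const (a : G) (n : ℕ) : prd (fun _ => a) n = a ^ n := by
  induction n with
  | zero => simp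
  | succ n ih => rw [prd_succ, ih, pow_succ]

theorem prd_range (u : ℕ → G) (n : ℕ) : prd u n = ((List.range n).map u).prod := by
  induction n with
  | zero => simp
  | succ n ih => rw [prd_succ, ih, List.range_succ]; simp

/-- a block with short ends -/
def Ends (X : Nm G) (z : G) (ω : ℕ) (b : G × ℤ × G) : Prop :=
  X.d z (b.1 * z) ≤ ω ∧ X.d z (b.2.2 * z) ≤ ω

/-- the exponent of a block lies between `m` and `2 m` -/
def Expo (m : ℕ) (b : G × ℤ × G) : Prop := (m : ℝ) ≤ |(b.2.1 : ℝ)| ∧ |(b.2.1 : ℝ)| ≤ 2 * m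

theorem Ends.binv {X : Nm G} {z : G} {ω : ℕ} {b : G × ℤ × G} (h : Ends X z ω b) :
    Ends X z ω (binv b) := by
  refine ⟨?_, ?_⟩
  · change X.d z (b.2.2⁻¹ * z) ≤ ω
    rw [Nm.d_inv_self]; exact h.2
  · change X.d z (b.1⁻¹ * z) ≤ ω
    rw [Nm.d_inv_self]; exact h.1

theorem Expo.binv {m : ℕ} {b : G × ℤ × G} (h : Expo m b) : Expo m (binv b) := by
  unfold Expo at *
  change (m : ℝ) ≤ |((-b.2.1 : ℤ) : ℝ)| ∧ |((-b.2.1 : ℤ) : ℝ)| ≤ 2 * m
  rw [Int.cast_neg, abs_neg]; exact h

omit [Group G] in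
theorem expo_of {m r : ℕ} (a c : G) (h : r ≤ m) : Expo m (a, ((m + r : ℕ) : ℤ), c) := by
  unfold Expo
  change (m : ℝ) ≤ |(((m + r : ℕ) : ℤ) : ℝ)| ∧ |(((m + r : ℕ) : ℤ) : ℝ)| ≤ 2 * m
  rw [Int.cast_natCast, Nat.abs_cast]
  have h1 : (r : ℝ) ≤ m := by exact_mod_cast h
  have h2 : (0 : ℝ) ≤ r := Nat.cast_nonneg r
  push_cast
  constructor <;> linarith

theorem Expo.len {X : Nm G} {m : ℕ} {b : G × ℤ × G} (h : Expo m b) {U : G} {c : ℝ}
    (hc : c ≤ m * X.τ U) : c ≤ |(b.2.1 : ℝ)| * X.τ U :=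
  hc.trans (mul_le_mul_of_nonneg_right h.1 (X.tau_nonneg U))

theorem up_blk {X : Nm G} {z U : G} {ω m t ℓ' : ℕ} {b : G × ℤ × G} (h1 : Ends X z ω b)
    (h2 : Expo m b) (hT : Tame X U z t) (h : 2 * (m * X.τ U) + t + 2 * ω ≤ ℓ') :
    X.d z (bval U b * z) ≤ ℓ' := by
  have e1 := d2 X (b.1 * U ^ b.2.1) b.2.2 z
  have e2 := d2 X b.1 (U ^ b.2.1) z
  have e3 := hT.zpow b.2.1
  have e4 := mul_le_mul_of_nonneg_right h2.2 (X.tau_nonneg U)
  have e5 : X.d z (bval U b * z) ≤ X.d z (U ^ b.2.1 * z) + 2 * ω := by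
    have := h1.1
    have := h1.2
    unfold bval; omega
  have e6 : (X.d z (bval U b * z) : ℝ) ≤ X.d z (U ^ b.2.1 * z) + 2 * ω := by exact_mod_cast e5
  have : (X.d z (bval U b * z) : ℝ) ≤ ℓ' := by linarith
  exact_mod_cast this

/-! the system of the subgroup `Hs` -/

theorem hval (k m : ℕ) (g h : G) (l : Fin k × Bool) :
    (hSys k m g h).val l = cond l.2 (bW m g h l.1) (bW m g h l.1)⁻¹ := by
  obtain ⟨l, b⟩ := l
  cases b
  · change prd (fun s => bval (eW g h) (binv (bBlk m g l (59 - s)))) 60 = (bW m g h l)⁻¹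
    unfold bW
    rw [← prd_rev]
    exact prd_congr fun i _ => bval_binv _ _
  · change prd (fun s => bval (eW g h) (bBlk m g l s)) 60 = bW m g h l
    unfold bW; rfl

theorem letters {k : ℕ} {v : F} (hv : v ∈ Fk k) : ∀ a ∈ v.toWord, a.1 < k := by
  induction hv using Subgroup.closure_induction with
  | mem _ h =>
    obtain ⟨l, hl, rfl⟩ := h
    intro a ha
    rw [FreeGroup.toWord_of, List.mem_singleton] at ha
    subst ha; exact hl
  | one => simp
  | mul a b _ _ ha hb =>
    intro c hc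
    rcases List.mem_append.1 ((FreeGroup.toWord_mul_sublist a b).subset hc) with h | h
    · exact ha c h
    · exact hb c h
  | inv a _ ha =>
    intro c hc
    rw [FreeGroup.toWord_inv, FreeGroup.invRev, List.mem_reverse, List.mem_map] at hc
    obtain ⟨c', h1, rfl⟩ := hc
    exact ha c' h1

theorem hword {k : ℕ} (hk : 0 < k) (m : ℕ) (g h : G) {v : F} (hv : v ∈ Fk k) :
    ∃ w : ℕ → (hSys k m g h).Λ,
      (∀ t, t + 1 < FreeGroup.norm v → (hSys k m g h).ok (w t) (w (t + 1))) ∧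
      θW m g h v = prd (fun t => (hSys k m g h).val (w t)) (FreeGroup.norm v) := by
  have hl := letters hv
  have hr : FreeGroup.IsReduced v.toWord := FreeGroup.isReduced_toWord
  refine ⟨fun t => if ht : t < v.toWord.length then
    (⟨v.toWord[t].1, hl _ (List.getElem_mem ht)⟩, v.toWord[t].2) else (⟨0, hk⟩, true), ?_, ?_⟩
  · intro t ht
    have h1 : t + 1 < v.toWord.length := ht
    have h2 : t < v.toWord.length := by omega
    simp only [dif_pos h1, dif_pos h2]
    intro h3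
    exact List.isChain_iff_getElem.1 hr t h1 (congrArg Fin.val h3)
  · conv_lhs => rw [← FreeGroup.mk_toWord (x := v)]
    unfold θW
    rw [FreeGroup.lift_mk, prd_range]
    congr 1
    apply List.ext_getElem
    · simp [FreeGroup.norm]
    · intro i h1 h2
      have h3 : i < v.toWord.length := by simpa using h1
      simp only [List.getElem_map, List.getElem_range, dif_pos h3, hval]

theorem hGen {k : ℕ} (hk : 0 < k) (m : ℕ) (g h : G) : (hSys k m g h).Gen (Hs k m g h) := by
  refine ⟨fun l => ?_, ?_⟩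
  · have h1 : bW m g h l.1 ∈ Hs k m g h :=
      ⟨FreeGroup.of l.1, Subgroup.subset_closure ⟨l.1, l.1.2, rfl⟩, by
        unfold θW; exact FreeGroup.lift_apply_of⟩
    rw [hval]
    cases l.2
    · exact inv_mem h1
    · exact h1
  · rintro _ ⟨v, hv, rfl⟩
    obtain ⟨w, h1, h2⟩ := hword hk m g h hv
    exact ⟨_, w, h1, h2⟩

theorem bEnds {X : Nm G} {k : ℕ} {g z : G} {ω : ℕ} (hg : ∀ s, s ≤ k → X.d z (g ^ s * z) ≤ ω)
    (m : ℕ) (l : Fin k) (s : ℕ) : Ends X z ω (bBlk m g l s) := by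
  have h0 := hg 0 (Nat.zero_le _)
  have h1 := hg 1 (by have := l.2; omega)
  have h2 := hg (l + 1) l.2
  rw [pow_zero] at h0
  rw [pow_one] at h1
  unfold Ends bBlk
  constructor <;> dsimp only <;> split_ifs <;> assumption

theorem bExpo {k m : ℕ} (hm : (60 * k + 60) ^ 3 ≤ m) (g : G) (l : Fin k) {s : ℕ} (hs : s < 60) :
    Expo m (bBlk m g l s) :=
  expo_of _ _ ((Nat.pow_le_pow_left (by have := l.2; omega) 3).trans hm)

theorem hEnds {X : Nm G} {k : ℕ} {g z : G} {ω : ℕ} (hg : ∀ s, s ≤ k → X.d z (g ^ s * z) ≤ ω)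
    (m : ℕ) (h : G) (l : Fin k × Bool) (s : ℕ) : Ends X z ω ((hSys k m g h).blk l s) := by
  obtain ⟨l, b⟩ := l
  cases b
  · exact (bEnds hg m l (59 - s)).binv
  · exact bEnds hg m l s

theorem hExpo {k m : ℕ} (hm : (60 * k + 60) ^ 3 ≤ m) (g h : G) (l : Fin k × Bool) {s : ℕ}
    (hs : s < 60) : Expo m ((hSys k m g h).blk l s) := by
  obtain ⟨l, b⟩ := l
  cases b
  · exact (bExpo hm g l (s := 59 - s) (by omega)).binv
  · exact bExpo hm g l hs

theorem hlast (k m : ℕ) (g h : G) (l : Fin k × Bool) :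
    ((hSys k m g h).blk l 59).2.2 = g ^ (cond l.2 ((l.1 : ℤ) + 1) (-((l.1 : ℤ) + 1))) ∧
    ((hSys k m g h).blk l 0).1 = g ^ (cond l.2 ((l.1 : ℤ) + 1) (-((l.1 : ℤ) + 1))) := by
  obtain ⟨l, b⟩ := l
  have e : g ^ ((l : ℤ) + 1) = g ^ ((l : ℕ) + 1) := by
    rw [← zpow_natCast]; push_cast; rfl
  cases b
  · rw [cond_false, zpow_neg, e]
    exact ⟨rfl, rfl⟩
  · rw [cond_true, e]
    exact ⟨rfl, rfl⟩

theorem hSysS : HSysStmt := by
  intro G _ k m g h hk
  refine ⟨hGen hk m g h, fun X E hX hm z ω hg => ⟨fun ℓ hn hU hℓ => ?_, fun t ℓ' hT h1 l s hs => ?_⟩⟩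
  · refine ⟨le_rfl, fun h1 => hn ?_, hU, fun l s _ => (hEnds hg m h l s).1,
      fun l s _ => (hEnds hg m h l s).2, fun l s hs => (hExpo hm g h l hs).len hℓ, ?_, ?_⟩
    · have h2 : eW g h = 1 := h1
      rw [h2]; exact Commute.one_right g
    · rintro ⟨l, b⟩ s hs hc
      have hs' : s + 1 < 60 := hs
      apply hn
      cases b
      · change Commute ((if 59 - s = 0 then g ^ ((l : ℕ) + 1) else 1)⁻¹ *
          (if 59 - (s + 1) = 59 then g ^ ((l : ℕ) + 1) else g)⁻¹) (eW g h) at hc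
        rw [if_neg (by omega), if_neg (by omega), inv_one, one_mul] at hc
        exact Commute.inv_left_iff.1 hc
      · change Commute ((if s = 59 then g ^ ((l : ℕ) + 1) else g) *
          (if s + 1 = 0 then g ^ ((l : ℕ) + 1) else 1)) (eW g h) at hc
        rwa [if_neg (by omega), if_neg (by omega), mul_one] at hc
    · intro l l' ho hc
      change Commute (((hSys k m g h).blk l 59).2.2 * ((hSys k m g h).blk l' 0).1) (eW g h) at hc
      rw [(hlast k m g h l).1, (hlast k m g h l').2, ← zpow_add] at hc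
      refine hn (hX.comm_of_zpow ?_ hc.symm).symm
      obtain ⟨l, b⟩ := l
      obtain ⟨l', b'⟩ := l'
      have ho' : l = l' → b = b' := ho
      have h3 : (l : ℕ) = l' → b = b' := fun h => ho' (Fin.ext h)
      cases b <;> cases b' <;> simp only [cond_true, cond_false] <;> intro h4
      · omega
      · exact absurd (h3 (by omega)) (by simp)
      · exact absurd (h3 (by omega)) (by simp)
      · omega
  · exact up_blk (hEnds hg m h l s) (hExpo hm g h l hs) hT h1

theorem hTau (W : SysWordStmt) : HTauStmt := by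
  intro G _ X E hX k m g h z ω ℓ b hV h1 h2 v hv hv1
  have hk : 0 < k := by
    rcases hw : v.toWord with _ | ⟨a, L⟩
    · exact absurd (FreeGroup.toWord_eq_nil_iff.1 hw) hv1
    · have := letters hv a (by rw [hw]; exact List.mem_cons_self)
      omega
  refine X.le_tau z (c := 0) fun n => ?_
  obtain ⟨w, w1, w2⟩ := hword hk m g h (pow_mem hv n)
  obtain ⟨x, u, c1, c2, -⟩ := W G X E hX _ z ω ℓ hV 1 _ w w1
  have e := c1.long hX (l := b) (by omega) (by omega) 0 _ (Nat.zero_add _).le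
  have e0 := c2 0 (Nat.zero_le _)
  have e1 := c2 _ le_rfl
  rw [Nat.zero_mul, prd_zero, one_mul, one_mul] at e0
  rw [← w2, one_mul, map_pow] at e1
  rw [Nat.zero_add, e0, e1] at e
  have e2 := le_norm_pow hv1 n
  have e3 : b * n ≤ X.d z (θW m g h v ^ n * z) := by
    refine le_trans ?_ e
    rw [mul_comm b n]
    refine Nat.mul_le_mul_right b (e2.trans ?_)
    exact Nat.le_mul_of_pos_right _ (show 0 < 60 by norm_num)
  rw [add_zero]
  exact_mod_cast e3

/-! the system of a relator -/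

theorem hh_ge : 60 ≤ hh := by
  have := h0_ge
  have := hh_eq
  omega

theorem rval (l : Law) (g h : G) :
    (rSys l g h).val true = rW l g h ∧ (rSys l g h).val false = (rW l g h)⁻¹ := by
  constructor
  · change prd (fun s => bval (VW l g h) (rBlk l g h s)) hh = rW l g h
    unfold rW; rfl
  · change prd (fun s => bval (VW l g h) (binv (rBlk l g h (hh - 1 - s)))) hh = (rW l g h)⁻¹
    unfold rW
    rw [← prd_rev]
    exact prd_congr fun i _ => bval_binv _ _

theorem tW_cases (P : G → Prop) {g h : G} (hg : P g) (hh' : P h) (hg' : P g⁻¹) (hh'' : P h⁻¹)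
    (k : ℕ) : P (tW g h k) := by
  unfold tW pat
  split_ifs <;> assumption

theorem rEnds {X : Nm G} {g h z : G} (hg : X.d z (g * z) ≤ 1) (hh' : X.d z (h * z) ≤ 1) (l : Law)
    (b : Bool) (s : ℕ) : Ends X z 1 ((rSys l g h).blk b s) := by
  have key : ∀ s, Ends X z 1 (rBlk l g h s) := fun s =>
    ⟨by change X.d z (1 * z) ≤ 1; simp, tW_cases (fun y => X.d z (y * z) ≤ 1) hg hh'
      (by rw [Nm.d_inv_self]; exact hg) (by rw [Nm.d_inv_self]; exact hh') s⟩
  cases b
  · exact (key _).binv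
  · exact key s

theorem rExpo {l : Law} (hn : (l.code * hh + hh) ^ 2 ≤ l.n) (g h : G) (b : Bool) {s : ℕ}
    (hs : s < hh) : Expo l.n ((rSys l g h).blk b s) := by
  have key : ∀ s, s < hh → Expo l.n (rBlk l g h s) := fun s hs =>
    expo_of _ _ ((Nat.pow_le_pow_left (by omega) 2).trans hn)
  cases b
  · exact (key _ (by omega)).binv
  · exact key s hs

theorem rnc {l : Law} {g h : G} (hg : ¬ Commute g (VW l g h)) (hh' : ¬ Commute h (VW l g h))
    (b : Bool) (s s' : ℕ) :
    ¬ Commute (((rSys l g h).blk b s).2.2 * ((rSys l g h).blk b s').1) (VW l g h) := by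
  have key := tW_cases (fun y => ¬ Commute y (VW l g h)) hg hh'
    (fun h1 => hg (Commute.inv_left_iff.1 h1)) (fun h1 => hh' (Commute.inv_left_iff.1 h1))
  intro hc
  cases b
  · change Commute ((1 : G)⁻¹ * (tW g h (hh - 1 - s'))⁻¹) (VW l g h) at hc
    rw [inv_one, one_mul] at hc
    exact key _ (Commute.inv_left_iff.1 hc)
  · change Commute (tW g h s * 1) (VW l g h) at hc
    rw [mul_one] at hc
    exact key _ hc

theorem rSysS (W : SysWordStmt) : RSysStmt := by
  intro G _ l g h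
  have hv := rval l g h
  refine ⟨⟨fun b => ?_, ?_⟩, fun X E hX hn z => ⟨fun ℓ hg hh' hV ng nh hℓ => ?_,
    fun ℓ' hN h1 b s hs => ?_, fun ℓ b hV h1 h2 => ?_⟩⟩
  · cases b
    · rw [hv.2]; exact inv_mem (Subgroup.mem_zpowers _)
    · rw [hv.1]; exact Subgroup.mem_zpowers _
  · rintro _ ⟨j, rfl⟩
    obtain ⟨n, rfl | rfl⟩ := Int.eq_nat_or_neg j
    · refine ⟨n, fun _ => true, fun _ _ => rfl, ?_⟩
      rw [prd_const, hv.1]; exact zpow_natCast _ _
    · refine ⟨n, fun _ => false, fun _ _ => rfl, ?_⟩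
      rw [prd_const, hv.2, inv_pow]
      change rW l g h ^ (-(n : ℤ)) = _
      rw [zpow_neg, zpow_natCast]
  · refine ⟨hh_ge, fun h1 => ng ?_, hV, fun b s _ => (rEnds hg hh' l b s).1,
      fun b s _ => (rEnds hg hh' l b s).2, fun b s hs => (rExpo hn g h b hs).len hℓ,
      fun b s _ => rnc ng nh b s (s + 1), ?_⟩
    · have h2 : VW l g h = 1 := h1
      rw [h2]; exact Commute.one_right g
    · rintro b _ rfl
      exact rnc ng nh b _ 0
  · refine up_blk (rEnds hN.dg hN.dh l b s) (rExpo hn g h b hs) hN.tame ?_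
    rw [Nat.cast_one, mul_one]; exact h1
  · have key : ∀ n, ∃ x u : ℕ → G, WC X x u (n * hh) 3 ℓ ∧
        ∀ t, t ≤ n → x (t * hh) = rW l g h ^ t * z := by
      intro n
      obtain ⟨x, u, c1, c2, -⟩ := W G X E hX _ z 1 ℓ hV 1 n (fun _ => true) (fun _ _ => rfl)
      refine ⟨x, u, c1, fun t ht => ?_⟩
      have := c2 t ht
      rwa [prd_const, hv.1, one_mul] at this
    constructor
    · obtain ⟨x, u, c1, c2⟩ := key 2
      have hp := hh_ge
      have e := c1.btw hX (by omega) (a := 0 * hh) (i := 1 * hh) (b := 2 * hh) (by omega) (by omega)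
        le_rfl
      have e' := c1.long hX (l := 192) (by omega) (by omega) (0 * hh) hh (by omega)
      rw [show 0 * hh + hh = 1 * hh by omega] at e'
      rw [c2 0 (by omega), c2 1 (by omega)] at e e'
      rw [c2 2 le_rfl, pow_two, mul_assoc (rW l g h), pow_one, Nm.d_mul, ← mul_assoc, ← pow_two,
        pow_zero, one_mul] at e
      rw [pow_zero, one_mul, pow_one] at e'
      exact tame_of_corner hX.fp (c := 810) (by omega) (by omega)
    · refine X.le_tau z (c := 0) fun n => ?_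
      obtain ⟨x, u, c1, c2⟩ := key n
      have e := c1.long hX (l := b) (by omega) (by omega) (0 * hh) (n * hh) (by omega)
      rw [show 0 * hh + n * hh = n * hh by omega, c2 0 (by omega), c2 n le_rfl, pow_zero,
        one_mul] at e
      have e3 : hh * b * n ≤ X.d z (rW l g h ^ n * z) := by
        refine le_trans (le_of_eq ?_) e
        ring
      rw [add_zero]
      exact_mod_cast e3

end Pool.Agent.MP_5c28a4_al.H43
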